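import Pool.Agent.H850Z.TB.Main

set_option autoImplicit false

open Pool.Agent.H850Z.TB

theorem Pool.Agent.Results.MP_10effd_pr.ANearLinear.result :
    ∀ ε : ℝ, 0 < ε → ε ≤ 1 → ∀ Δ : ℕ, ∃ C : ℝ, 0 < C ∧
      ∀ (V : Type) [Fintype V] [DecidableEq V] (G : SimpleGraph V) [DecidableRel G.Adj],
        2 ≤ Fintype.card V → G.Connected → (∀ v : V, G.degree v ≤ Δ) →
        ∀ v₀ : V, ∃ f : V → Finset V → V, (∀ (u : V) (S : Finset V), G.Adj u (f u S)) ∧
          coverTime G ε f v₀ ≤ ENNReal.ofReal (C * (Fintype.card V : ℝ) *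
            Real.log (Fintype.card V : ℝ) * Real.log (2 + Real.log (Fintype.card V : ℝ))) :=
  fun ε h0 h1 Δ => main ε h0 h1 Δ
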